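import Pool.Agent.ZPK.StmtsR2

/-!
Squad ZPK, row LWP: the exceptional case of the lower end.
-/

set_option autoImplicit false

namespace Pool.Agent.ZPK.H17

open Pool.Agent.ZPT Pool.Agent.ZP3

theorem nadd {K : Type} [NormedField K] [IsUltrametricDist K] {a b : K} {c : ℝ}
    (ha : ‖a‖ ≤ c) (hb : ‖b‖ ≤ c) : ‖a + b‖ ≤ c :=
  (IsUltrametricDist.norm_add_le_max a b).trans (max_le ha hb)

theorem nsub {K : Type} [NormedField K] [IsUltrametricDist K] {a b : K} {c : ℝ}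
    (ha : ‖a‖ ≤ c) (hb : ‖b‖ ≤ c) : ‖a - b‖ ≤ c := by
  rw [sub_eq_add_neg]
  exact nadd ha (by rw [norm_neg]; exact hb)

theorem npp {p : ℕ} (hp : p.Prime) {K : Type} [NormedField K] [CharZero K]
    (hE : Ext p K) : ‖(p : K)‖ = (p : ℝ)⁻¹ := by
  have h := hE (p : ℚ)
  have h1 : (((p : ℚ) : ℚ) : K) = (p : K) := by push_cast; ring
  rw [h1] at h
  haveI := Fact.mk hp
  rw [h, padicNorm.padicNorm_p_of_prime]
  push_cast
  ring

theorem nnat {p : ℕ} (hp : p.Prime) {K : Type} [NormedField K] [CharZero K]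
    (hE : Ext p K) (n : ℕ) : ‖(n : K)‖ ≤ 1 := by
  have h := hE (n : ℚ)
  have h1 : (((n : ℚ) : ℚ) : K) = (n : K) := by push_cast; ring
  rw [h1] at h
  haveI := Fact.mk hp
  rw [h]
  have h2 : padicNorm p ((n : ℤ) : ℚ) ≤ 1 := padicNorm.of_int (n : ℤ)
  have h3 : ((n : ℤ) : ℚ) = (n : ℚ) := by push_cast; ring
  rw [h3] at h2
  exact_mod_cast h2

theorem lwp (hTHB : ZP3.THBStmt) (hLGB : LgbStmt) (hLRX : LrxStmt) (hUNC : UncStmt)
    (hBIN : BinStmt) : LwpStmt := by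
  intro p hp hp11 K _ _ _ _ _ hE Log hLog L hL k y Θ θ₀ Ψ ρ hk hy hθL hθ hρ1 hρ2 hΘ hΨ h1 h2 hM
  have hp5 : 5 ≤ p := by omega
  obtain ⟨th1, th0, thl, th3, -⟩ := hTHB p hp hp5
  obtain ⟨⟨-, lgpow⟩, lgdiv, -, -, lgb5, -, -⟩ := hLGB p hp hp5 K hE Log hLog
  have hpR : (1 : ℝ) < (p : ℝ) := by exact_mod_cast hp.one_lt
  have hp0 : (0 : ℝ) < (p : ℝ) := by linarith
  have hpi0 : 0 < (p : ℝ)⁻¹ := inv_pos.mpr hp0
  have hpi1 : (p : ℝ)⁻¹ < 1 := inv_lt_one_of_one_lt₀ hpR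
  have npK := npp hp hE
  have hpK : (p : K) ≠ 0 := by exact_mod_cast hp.ne_zero
  have th32 : th p ^ 3 ≤ th p ^ 2 := pow_le_pow_of_le_one th0.le thl.le (by norm_num)
  have th31 : th p ^ 3 < 1 := pow_lt_one₀ th0.le thl (by norm_num)
  have hρ0 : 0 < ρ := hpi0.trans_le hρ1
  have hρl : ρ < 1 := hρ2.trans th31
  have hpk0 : 0 < p ^ k := Nat.pow_pos hp.pos
  -- norm of y
  have hy0 : 0 < ‖y‖ := by
    rcases (norm_nonneg y).eq_or_lt with h | h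
    · rw [← h, zero_pow hpk0.ne'] at hy
      exact absurd hy hpi0.ne
    · exact h
  have hy1 : ‖y‖ < 1 := by
    by_contra h
    push Not at h
    have := one_le_pow₀ h (n := p ^ k)
    rw [hy] at this
    linarith
  have hyK : y ≠ 0 := norm_pos_iff.mp hy0
  -- BIN
  have hbin := hBIN p hp K hE y k hy0 hy1 hk (by
    rcases Nat.lt_or_ge k 2 with h | h
    · left; omega
    · right
      rw [← hy]
      apply pow_lt_pow_right_of_lt_one₀ hy0 hy1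
      calc p ^ (k - 2) * (p - 1) < p ^ (k - 2) * p := by
            apply Nat.mul_lt_mul_of_pos_left
            · have := hp.pos; omega
            · exact Nat.pow_pos hp.pos
        _ = p ^ (k - 2 + 1) := by rw [pow_succ]
        _ ≤ p ^ k := Nat.pow_le_pow_right hp.pos (by omega))
  set S : K := (1 + y) ^ (p ^ k) - 1 - y ^ (p ^ k) with hS
  have hSp : ‖S‖ ^ p = ((p : ℝ)⁻¹) ^ (p + 1) := by
    rw [hbin, mul_pow, ← pow_mul, ← pow_succ, Nat.sub_add_cancel hk, hy, pow_succ]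
  have hS0 : 0 < ‖S‖ := by
    rw [hbin]
    exact mul_pos hpi0 (pow_pos hy0 _)
  have hSle : ‖S‖ ≤ (p : ℝ)⁻¹ := by
    rw [hbin]
    exact mul_le_of_le_one_right hpi0.le (pow_le_one₀ hy0.le hy1.le)
  have nyk : ‖y ^ (p ^ k)‖ = (p : ℝ)⁻¹ := by rw [norm_pow, hy]
  -- x
  set x : K := (1 + y) ^ (p ^ k) - 1 with hx
  have hxS : x = y ^ (p ^ k) + S := by rw [hS, hx]; ring
  have nx : ‖x‖ ≤ (p : ℝ)⁻¹ := by
    rw [hxS]
    exact nadd nyk.le hSle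
  have hpp2 : (p : ℝ)⁻¹ * (p : ℝ)⁻¹ ≤ ρ * (p : ℝ)⁻¹ := mul_le_mul_of_nonneg_right hρ1 hpi0.le
  have hlx : ‖Log (1 + x) - x‖ ≤ ρ * (p : ℝ)⁻¹ := by
    have h := lgb5 x (nx.trans (th3.le.trans th32))
    calc ‖Log (1 + x) - x‖ ≤ ‖x‖ ^ 2 := h
      _ = ‖x‖ * ‖x‖ := by ring
      _ ≤ (p : ℝ)⁻¹ * (p : ℝ)⁻¹ := mul_le_mul nx nx (norm_nonneg _) hpi0.le
      _ ≤ _ := hpp2
  have h1y : (1 : K) + y ≠ 0 := by
    intro h
    have : y = -1 := by linear_combination h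
    rw [this, norm_neg, norm_one] at hy1
    exact lt_irrefl _ hy1
  have hLx : Log (1 + x) = ((p ^ k : ℕ) : K) * Log (1 + y) := by
    have h := lgpow (1 + y) ((p ^ k : ℕ) : ℤ) h1y
    rw [zpow_natCast] at h
    have e1 : 1 + x = (1 + y) ^ (p ^ k) := by rw [hx]; ring
    rw [e1, h]
    push_cast
    ring
  have npk : ‖((p ^ k : ℕ) : K)‖ ≤ (p : ℝ)⁻¹ := by
    push_cast
    rw [norm_pow, npK]
    calc (p : ℝ)⁻¹ ^ k ≤ (p : ℝ)⁻¹ ^ 1 := pow_le_pow_of_le_one hpi0.le hpi1.le hk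
      _ = _ := pow_one _
  have hr : ρ * ‖((p ^ k : ℕ) : K)‖ ≤ ρ * (p : ℝ)⁻¹ := mul_le_mul_of_nonneg_left npk hρ0.le
  have nΘ : ‖Θ‖ ≤ (p : ℝ)⁻¹ := by
    have e1 : Θ = (Θ - θ₀) + θ₀ := by ring
    rw [e1]
    exact nadd (hΘ.trans (mul_le_of_le_one_left hpi0.le hρl.le)) hθ.le
  have nx0 : ‖x - θ₀‖ ≤ ρ * (p : ℝ)⁻¹ := by
    have e1 : x - θ₀ = (((((p ^ k : ℕ) : K) * Log (1 + y) - ((p ^ k + 1 : ℕ) : K) * Θ)
        + ((p ^ k : ℕ) : K) * Θ) + (Θ - θ₀)) - (Log (1 + x) - x) := by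
      rw [hLx]
      push_cast
      ring
    rw [e1]
    refine nsub (nadd (nadd (h1.trans hr) ?_) hΘ) hlx
    rw [norm_mul]
    exact (mul_le_mul npk nΘ (norm_nonneg _) hpi0.le).trans hpp2
  -- X
  set X : K := y ^ (p ^ k) / (p : K) with hX
  have hyk0 : y ^ (p ^ k) ≠ 0 := pow_ne_zero _ hyK
  have hLX : Log X = ((p ^ k : ℕ) : K) * Log y := by
    rw [hX, lgdiv _ _ hyk0 hpK, hLog.pp, sub_zero]
    have h := lgpow y ((p ^ k : ℕ) : ℤ) hyK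
    rw [zpow_natCast] at h
    rw [h]
    push_cast
    ring
  have nLX : ‖Log X‖ ≤ (p : ℝ)⁻¹ := by
    have e1 : Log X = (((p ^ k : ℕ) : K) * Log y + ((p ^ k + 1 : ℕ) : K) * Ψ)
        - ((p ^ k + 1 : ℕ) : K) * Ψ := by rw [hLX]; ring
    rw [e1]
    refine nsub ((h2.trans hr).trans (mul_le_of_le_one_left hpi0.le hρl.le)) ?_
    rw [norm_mul]
    exact (mul_le_of_le_one_left (norm_nonneg _) (nnat hp hE _)).trans hΨ
  have hth1 : (p : ℝ)⁻¹ < th p := by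
    calc (p : ℝ)⁻¹ < th p ^ 3 := th3
      _ ≤ th p ^ 1 := pow_le_pow_of_le_one th0.le thl.le (by norm_num)
      _ = th p := pow_one _
  obtain ⟨ζ, d, hζ, hXd, hd⟩ := hLRX p hp hp5 K hE Log hLog X hM (nLX.trans_lt hth1)
  have nζ : ‖ζ‖ = 1 := by
    obtain ⟨M, hM1, hM2⟩ := hζ
    have h := congrArg norm hM2
    rw [norm_pow, norm_one] at h
    exact (pow_eq_one_iff_of_nonneg (norm_nonneg _) (by omega)).mp h
  have nyX : ‖y ^ (p ^ k) - ζ * p‖ ≤ ρ * (p : ℝ)⁻¹ := by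
    have e1 : y ^ (p ^ k) = X * p := by
      rw [hX]
      field_simp
    have e2 : y ^ (p ^ k) - ζ * p = ζ * d * p := by
      rw [e1, hXd]
      ring
    rw [e2, norm_mul, norm_mul, nζ, one_mul, npK]
    refine mul_le_mul_of_nonneg_right ?_ hpi0.le
    rw [hd]
    exact nLX.trans hρ1
  -- size of S against rho / p
  have hρS : ρ * (p : ℝ)⁻¹ < ‖S‖ := by
    by_contra h
    push Not at h
    have h3 := pow_le_pow_left₀ hS0.le h p
    rw [hSp, mul_pow, pow_succ, mul_comm] at h3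
    have h4 : (p : ℝ)⁻¹ ≤ ρ ^ p := le_of_mul_le_mul_right h3 (pow_pos hpi0 p)
    have h5 : ρ ^ p < (th p ^ 3) ^ p := pow_lt_pow_left₀ hρ2 hρ0.le hp.ne_zero
    have h6 : (th p ^ 3) ^ p ≤ th p ^ (p - 1) := by
      rw [← pow_mul]
      exact pow_le_pow_of_le_one th0.le thl.le (by omega)
    rw [th1] at h6
    linarith
  have hN : ‖θ₀ - ζ * p‖ = ‖S‖ := by
    have e1 : θ₀ - ζ * p = S + ((y ^ (p ^ k) - ζ * p) - (x - θ₀)) := by
      rw [hxS]; ring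
    have h7 : ‖(y ^ (p ^ k) - ζ * p) - (x - θ₀)‖ < ‖S‖ := (nsub nyX nx0).trans_lt hρS
    rw [e1]
    rw [IsUltrametricDist.norm_add_eq_max_of_norm_ne_norm h7.ne']
    exact max_eq_left h7.le
  have hpL : (p : K) ∈ L := natCast_mem L p
  have hpinj : ∀ a b : ℤ, (p : ℝ) ^ a = (p : ℝ) ^ b → a = b := fun a b h =>
    zpow_right_injective₀ hp0 hpR.ne' h
  have hSz : ‖S‖ ^ p = (p : ℝ) ^ (-((p : ℤ) + 1)) := by
    rw [hSp, inv_pow, ← zpow_natCast, ← zpow_neg]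
    push_cast
    ring
  rcases hUNC p hp hp5 K hE L hL θ₀ hθL p hpL ζ hζ with h | ⟨a, h⟩ | ⟨a, b, h⟩
  · rw [hN] at h
    exact hS0.ne' h
  · rw [hN] at h
    rw [h, ← zpow_natCast, ← zpow_mul] at hSz
    have h8 := hpinj _ _ hSz
    have h9 : (p : ℤ) ∣ 1 := ⟨-1 - a, by linear_combination h8⟩
    have h10 := Int.le_of_dvd one_pos h9
    have : (11 : ℤ) ≤ p := by exact_mod_cast hp11
    omega
  · rw [hN] at h
    set φ : ℕ := p ^ b * (p - 1) with hφ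
    have h8 : (‖S‖ ^ φ) ^ p = (p : ℝ) ^ (-(((p : ℤ) + 1) * φ)) := by
      rw [← pow_mul, mul_comm, pow_mul, hSz, ← zpow_natCast, ← zpow_mul]
      ring_nf
    have h9 : ((((p : ℝ) ^ a) ^ φ * (p : ℝ)⁻¹)) ^ p = (p : ℝ) ^ ((a * φ - 1) * (p : ℤ)) := by
      rw [← zpow_natCast, ← zpow_natCast, ← zpow_mul, ← zpow_neg_one, ← zpow_add₀ hp0.ne', ← zpow_mul]
      ring_nf
    rw [h, h9] at h8
    have h10 := hpinj _ _ h8
    have h11 : (φ : ℤ) ∣ (p : ℤ) := ⟨p * a + p + 1, by linear_combination -h10⟩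
    have h12 : φ ∣ p := by exact_mod_cast h11
    have h13 : (p - 1) ∣ p := dvd_trans ⟨p ^ b, by rw [hφ]; ring⟩ h12
    rcases (Nat.dvd_prime hp).mp h13 with h14 | h14 <;> omega

end Pool.Agent.ZPK.H17
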